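import Pool.Agent.W829.UB.Fin
import Pool.Agent.W156.UBPATH
import Pool.Agent.W346.UB.Loc
import Pool.Agent.W346.UB.Zon
import Pool.Agent.W880.UB.Ind

/-!
Problem MP_28b826_pr, question Q2: for a subcritical update family of the square lattice the mean
occupation time of the origin at the critical probability is infinite, except for the families with
critical probability one (those all of whose rules have the origin in their convex hull), where it is zero.
-/

set_option autoImplicit false

open MeasureTheory Set
open Pool.Agent.W829.UB

namespace Pool.Agent.Results.MP_28b826_pr.MeanOccupationTime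

/-- For every subcritical update family `U`: if some rule of `U` does not have the origin in its convex
hull, then `pc U < 1`, the origin is still healthy at time `n` with probability at least `c / n` at `pc U`
and the mean occupation time of the origin at `pc U` is infinite; otherwise
`pc U = 1` and the mean occupation time at `pc U` is zero. -/
theorem result (U : Finset (Finset Site)) (hU : IsUpdateFamily U) (hs : Subcritical U) :
    ∃ q : unitInterval, (q : ℝ) = pc U ∧
      ((∃ X ∈ U, (0 : ℝ × ℝ) ∉ convexHull ℝ (real X)) →
        pc U < 1 ∧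
        (∃ c : ℝ, 0 < c ∧ ∀ n : ℕ, 1 ≤ n →
          c / n ≤ (Perc q {ω | (0 : Site) ∉ infected U (init ω) n}).toReal) ∧
        ∫⁻ ω, time U (init ω) ∂(Perc q) = ⊤) ∧
      ((∀ X ∈ U, (0 : ℝ × ℝ) ∈ convexHull ℝ (real X)) →
        pc U = 1 ∧ ∫⁻ ω, time U (init ω) ∂(Perc q) = 0) :=
  main_fin Pool.Agent.W156.UBPath.path 
    (Pool.Agent.W880.UB.ind Pool.Agent.W346.UB.meas Pool.Agent.W346.UB.shift) Pool.Agent.W346.UB.loc
    Pool.Agent.W346.UB.shift Pool.Agent.W346.UB.meas Pool.Agent.W880.UB.cont
    Pool.Agent.W346.UB.zon Pool.Agent.W346.UB.sub U hU hs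

end Pool.Agent.Results.MP_28b826_pr.MeanOccupationTime
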